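import Pool.Agent.N110.CC.RStm
import Pool.Agent.N110.NV.Cl
import Pool.Agent.N110.NV.Lim
import Pool.Agent.N492.PA.Mat
import Pool.Agent.R887.Nef
import Pool.Agent.N40.CC.EFF

/-!
Project CC (helper110), part BIG (helper619): a class in the interior is big.
-/

set_option autoImplicit false
set_option linter.all false

open FF Pool.Agent.W602.GT Pool.Agent.Y172 Pool.Agent.R887
open Pool.Agent.Y167 (cone)
open Pool.Agent.N110 Pool.Agent.N110.PA Pool.Agent.N110.NV Pool.Agent.N492.PA
open Pool.Agent.N110.CC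

namespace Pool.Agent.N619.CC

/-- rational vectors in the real cone of rational vectors are in the rational cone -/
theorem rat_cone {ρ : ℕ} {ι : Type} [DecidableEq ι] (b : ι → Fin ρ → ℚ) (l : Fin ρ → ℚ) (n : ℕ) :
    ∀ (T : Finset ι), T.card = n → ∀ a : ι → ℝ, (∀ j, 0 ≤ a j) →
      toR l = ∑ j ∈ T, a j • toR (b j) →
      ∃ a' : ι → ℚ, (∀ j, 0 ≤ a' j) ∧ l = ∑ j ∈ T, a' j • b j := by
  classical
  induction n using Nat.strong_induction_on with
  | _ n ih =>
    intro T hT a ha hl
    by_cases hind : LinearIndependent ℚ (fun j : T => b j)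
    · obtain ⟨-, h1⟩ := rat ρ T (fun j => b j) hind
      obtain ⟨a', ha', h2⟩ := h1 l (fun j => a j) (fun j => ha j) (fun i => by
        have h3 := congrFun hl i
        rw [Finset.sum_apply, ← Finset.sum_coe_sort] at h3
        exact h3)
      refine ⟨fun j => if h : j ∈ T then a' ⟨j, h⟩ else 0, fun j => ?_, ?_⟩
      · dsimp only
        split_ifs
        · exact ha' _
        · exact le_rfl
      · rw [h2, ← Finset.sum_coe_sort T]
        refine Finset.sum_congr rfl fun j _ => ?_
        change _ = (if h : (j : ι) ∈ T then a' ⟨j, h⟩ else 0) • b j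
        rw [dif_pos j.2]
    · rw [Fintype.linearIndependent_iff] at hind
      push Not at hind
      obtain ⟨r0, hr0, j1, hj1⟩ := hind
      -- a relation with a positive coefficient
      obtain ⟨r, hr, j2, hj2T, hj2⟩ : ∃ r : ι → ℚ, ∑ j ∈ T, r j • b j = 0 ∧
          ∃ j ∈ T, 0 < r j := by
        have key : ∀ s : ℚ, ∑ j ∈ T, (if h : j ∈ T then s * r0 ⟨j, h⟩ else 0) • b j = 0 := by
          intro s
          rw [← Finset.sum_coe_sort T]
          have h3 : ∑ j : T, (if h : (j : ι) ∈ T then s * r0 ⟨j, h⟩ else 0) • b j =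
              s • ∑ j : T, r0 j • b j := by
            rw [Finset.smul_sum]
            refine Finset.sum_congr rfl fun j _ => ?_
            rw [dif_pos j.2, mul_smul]
          rw [h3, hr0, smul_zero]
        rcases lt_or_gt_of_ne hj1 with h | h
        · refine ⟨_, key (-1), j1, j1.2, ?_⟩
          rw [dif_pos j1.2]
          have h4 : r0 ⟨j1, j1.2⟩ = r0 j1 := rfl
          rw [h4]
          linarith
        · refine ⟨_, key 1, j1, j1.2, ?_⟩
          rw [dif_pos j1.2, one_mul]
          exact h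
      have hne : (T.filter fun j => 0 < r j).Nonempty := ⟨j2, Finset.mem_filter.2 ⟨hj2T, hj2⟩⟩
      obtain ⟨j0, hj0, hmin⟩ := Finset.exists_min_image (T.filter fun j => 0 < r j)
        (fun j => a j / (r j : ℝ)) hne
      rw [Finset.mem_filter] at hj0
      obtain ⟨θ, hθ⟩ : ∃ θ : ℝ, θ = a j0 / (r j0 : ℝ) := ⟨_, rfl⟩
      have hr0' : (0 : ℝ) < (r j0 : ℝ) := by exact_mod_cast hj0.2
      have hθ0 : 0 ≤ θ := by
        rw [hθ]
        exact div_nonneg (ha _) hr0'.le
      have hnn : ∀ j ∈ T, 0 ≤ a j - θ * (r j : ℝ) := by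
        intro j hj
        by_cases hpos : 0 < r j
        · have h1 := hmin j (Finset.mem_filter.2 ⟨hj, hpos⟩)
          have h2 : (0 : ℝ) < (r j : ℝ) := by exact_mod_cast hpos
          rw [← hθ, le_div_iff₀ h2] at h1
          linarith
        · have h2 : (r j : ℝ) ≤ 0 := by exact_mod_cast not_lt.1 hpos
          have h3 := mul_nonneg_of_nonpos_of_nonpos (neg_nonpos.2 hθ0) h2
          have h4 := ha j
          nlinarith
      have hz : a j0 - θ * (r j0 : ℝ) = 0 := by
        rw [hθ, div_mul_cancel₀ _ hr0'.ne', sub_self]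
      have hrel : ∑ j ∈ T, (r j : ℝ) • toR (b j) = 0 := by
        have h1 : toR (∑ j ∈ T, r j • b j) = ∑ j ∈ T, (r j : ℝ) • toR (b j) := by
          rw [toR_sum]
          exact Finset.sum_congr rfl fun j _ => toR_smul _ _
        rw [← h1, hr]
        funext i
        simp [toR]
      have hl2 : toR l = ∑ j ∈ T.erase j0, (if j ∈ T then a j - θ * (r j : ℝ) else 0) •
          toR (b j) := by
        have h1 : toR l = ∑ j ∈ T, (a j - θ * (r j : ℝ)) • toR (b j) := by
          have h2 : ∑ j ∈ T, (a j - θ * (r j : ℝ)) • toR (b j) =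
              ∑ j ∈ T, a j • toR (b j) - θ • ∑ j ∈ T, (r j : ℝ) • toR (b j) := by
            rw [Finset.smul_sum, ← Finset.sum_sub_distrib]
            refine Finset.sum_congr rfl fun j _ => ?_
            rw [sub_smul, mul_smul]
          rw [h2, hrel, smul_zero, sub_zero, hl]
        rw [h1, ← Finset.add_sum_erase T _ hj0.1, hz, zero_smul, zero_add]
        refine Finset.sum_congr rfl fun j hj => ?_
        rw [if_pos (Finset.mem_of_mem_erase hj)]
      have hcard : (T.erase j0).card < n := by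
        rw [← hT]
        exact Finset.card_erase_lt_of_mem hj0.1
      obtain ⟨a', ha', h2⟩ := ih _ hcard (T.erase j0) rfl
        (fun j => if j ∈ T then a j - θ * (r j : ℝ) else 0) (fun j => by
          split_ifs with h
          · exact hnn j h
          · exact le_rfl) hl2
      refine ⟨fun j => if j = j0 then 0 else a' j, fun j => ?_, ?_⟩
      · dsimp only
        split_ifs
        · exact le_rfl
        · exact ha' j
      · rw [← Finset.add_sum_erase T _ hj0.1]
        change l = (if j0 = j0 then 0 else a' j0) • b j0 +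
          ∑ x ∈ T.erase j0, (if x = j0 then 0 else a' x) • b x
        rw [if_pos rfl, zero_smul, zero_add, h2]
        refine Finset.sum_congr rfl fun j hj => ?_
        rw [if_neg (Finset.ne_of_mem_erase hj)]

theorem leafBIG : S_BIG := by
  classical
  intro K _ _ N ρ y hy c hc L hL hint i hi
  obtain ⟨H, hH, hHord⟩ := exists_hyp hy hi
  have hHf : Fin0 y H := hH.2
  have hLf : Fin0 y L := hL
  -- the integer `k`
  obtain ⟨k, hk1, hk⟩ : ∃ k : ℕ, 1 ≤ k ∧ toR (cls y (cQ c) L) - ((2 : ℝ) / k) •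
      toR (cls y (cQ c) H) ∈ interior (closure (effSet y (cQ c))) := by
    have h1 : Filter.Tendsto (fun k : ℕ => toR (cls y (cQ c) L) - ((2 : ℝ) / k) •
        toR (cls y (cQ c) H)) Filter.atTop (nhds (toR (cls y (cQ c) L))) := by
      have h2 := tendsto_const_div_atTop_nhds_zero_nat (2 : ℝ)
      have h3 := (h2.smul_const (toR (cls y (cQ c) H))).const_sub (toR (cls y (cQ c) L))
      rwa [zero_smul, sub_zero] at h3
    have h2 := h1.eventually (isOpen_interior.mem_nhds hint)
    obtain ⟨k, hk⟩ := (h2.and (Filter.eventually_ge_atTop 1)).exists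
    exact ⟨k, hk.2, hk.1⟩
  have hk0 : (0 : ℚ) < (k : ℚ) := by exact_mod_cast hk1
  obtain ⟨L', hL'⟩ : ∃ L' : Place ℂ K → ℚ, L' = fun P => L P - (2 / (k : ℚ)) * H P := ⟨_, rfl⟩
  have hL'f : Fin0 y L' := by
    rw [hL']
    exact hLf.sub (hHf.smul _)
  have hcls : toR (cls y (cQ c) L') = toR (cls y (cQ c) L) - ((2 : ℝ) / k) •
      toR (cls y (cQ c) H) := by
    rw [hL', cls_sub hLf (hHf.smul _), toR_sub, cls_smul, toR_smul]
    push_cast
    rfl
  have hmem := (Pool.Agent.N40.CC.leafEFF K N ρ y hy c hc).2 hk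
  rw [← hcls] at hmem
  obtain ⟨S, hS, a, ha, hsum⟩ := hmem
  have hP : ∀ z : S, ∃ P : Place ℂ K, IsPrimeDivisor y P ∧ (z : Fin ρ → ℝ) = rcl c P := by
    intro z
    obtain ⟨P, hP1, hP2⟩ := hS z.2
    exact ⟨P, hP1, hP2⟩
  choose P hP using hP
  have htoR : ∀ z : S, toR (cQ c (P z)) = z := by
    intro z
    conv_rhs => rw [(hP z).2]
    funext j
    simp [toR, cQ, rcl]
  obtain ⟨a', ha', hrat⟩ := rat_cone (fun z : S => cQ c (P z)) (cls y (cQ c) L') _ Finset.univ rfl
    (fun z => a z) (fun z => ha z) (by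
      rw [hsum, ← Finset.sum_coe_sort S]
      refine Finset.sum_congr rfl fun z _ => ?_
      rw [htoR z])
  obtain ⟨E, hE⟩ : ∃ E : Place ℂ K → ℚ, E = fun Q => ∑ z : S, if Q = P z then a' z else 0 :=
    ⟨_, rfl⟩
  have hEf : Fin0 y E := by
    rw [hE]
    exact Fin0.sum Finset.univ fun z _ => fin_single (P z) (a' z)
  have hEn : ∀ Q, 0 ≤ E Q := by
    intro Q
    rw [hE]
    refine Finset.sum_nonneg fun z _ => ?_
    split_ifs
    · exact ha' z
    · exact le_rfl
  have hEc : cls y (cQ c) E = cls y (cQ c) L' := by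
    rw [hrat, hE, cls_sum Finset.univ fun z _ => fin_single (P z) (a' z)]
    exact Finset.sum_congr rfl fun z _ => cls_single (hP z).1 _
  have hDf : Fin0 y (fun Q => L' Q - E Q) := hL'f.sub hEf
  have hDc : cls y (cQ c) (fun Q => L' Q - E Q) = 0 := by
    rw [cls_sub hL'f hEf, hEc, sub_self]
  obtain ⟨m, hm, f, hf, hfin⟩ := hc.numClasses.trivial (fun Q => L' Q - E Q) hDf hDc i hi k hk1
  refine ⟨m * k, Nat.one_le_iff_ne_zero.2 (by positivity), f, hf, fun Q l hQ hl => ?_⟩
  have h1 := hfin Q l hQ hl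
  have h2 := hHord Q l hQ hl
  have h3 := hEn Q
  have h4 : (0 : ℚ) ≤ H Q := hH.1 Q hQ
  have h5 : (1 : ℚ) ≤ (m : ℚ) := by exact_mod_cast hm
  have h6 : (m : ℚ) * ((k : ℚ) * (L' Q - E Q) + H Q) =
      (m : ℚ) * k * L Q - m * H Q - m * k * E Q := by
    rw [hL']
    field_simp
    ring
  rw [← h2] at h1 ⊢
  rw [h6] at h1
  have h7 : 0 ≤ (m : ℚ) * k * E Q := by positivity
  push_cast
  nlinarith

end Pool.Agent.N619.CC
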